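import Mathlib

/-!
# Almost all graphs are edge-path-regular: definitions

`cnt G A B` is the number of the vertices outside `A ∪ B` which are adjacent to all the vertices of `A` and to
none of `B`. A graph is `Good ε` if all these numbers are at least `(2^(-|A|-|B|) - ε) n`, for all disjoint
`A`, `B` with `|A| + |B| ≤ 5`.
-/

set_option autoImplicit false

open Finset

namespace Pool.Agent.H60.EP

open scoped Classical in
/-- the number of the vertices outside `A ∪ B`, adjacent to all of `A` and to none of `B` -/
noncomputable def cnt {V : Type} [Fintype V] (G : SimpleGraph V) (A B : Finset V) : ℕ :=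
  (univ.filter fun v => v ∉ A ∧ v ∉ B ∧ (∀ a ∈ A, G.Adj v a) ∧ ∀ b ∈ B, ¬ G.Adj v b).card

/-- the extension property with counts, for at most five vertices -/
def Good {V : Type} [Fintype V] (ε : ℝ) (G : SimpleGraph V) : Prop :=
  ∀ A B : Finset V, Disjoint A B → A.card + B.card ≤ 5 →
    ((1 / 2 : ℝ) ^ (A.card + B.card) - ε) * Fintype.card V ≤ cnt G A B

/-- the property of the frozen statement -/
def EPR (n : ℕ) (G : SimpleGraph (Fin n)) : Prop :=
  ∃ m k : ℕ, 1 ≤ m ∧ 1 ≤ k ∧
    ∃ P : ∀ u v : Fin n, Fin k → G.Walk u v,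
      (∀ u v : Fin n, u < v → ∀ t : Fin k,
          (P u v t).IsPath ∧ (P u v t).length = G.dist u v) ∧
      (∀ e ∈ G.edgeSet,
          ∑ u : Fin n, ∑ v ∈ Finset.univ.filter (fun v => u < v), ∑ t : Fin k,
            (P u v t).edges.count e = m)

/-- PROBABILITY (module `Prob`): almost all graphs are good.

Proof. Let `A`, `B` be disjoint, `k = |A| + |B| ≤ 5`, `S = A ∪ B`, `W` the complement. For `G` let
`b_G : W → (S → Bool)` be the adjacencies between `W` and `S`. All the fibres of `G ↦ b_G` have the same
cardinality (for a graph `H` all of whose edges join `W` and `S`, `G ↦ G ∆ H` maps the fibre of `b` onto the fibre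
of `b xor b_H`), so that the proportion of the graphs with a property of `b_G` is the proportion of the functions `b`
with this property. `cnt G A B` is the number `N(b)` of the `v ∈ W` with `b v = s`, `s` the indicator of `A`. For
`0 < t ≤ 1`: `∑_b exp(-t N(b)) = (2^k - 1 + exp(-t))^|W| ≤ 2^(k |W|) exp(-2^(-k) (1 - exp(-t)) |W|)` and
`1 - exp(-t) ≥ t - t²/2`, so by Markov the proportion of the `b` with `N(b) < (2^(-k) - ε) n` is at most
`exp(t (2^(-k) - ε) n - 2^(-k) (t - t²/2) (n - 5)) ≤ exp(-t ε n + t² n / 2 + 5)`; take `t = ε` (`ε ≤ 1` without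
loss of generality). There are at most `4^n`... better: at most `(n + 1)^5 * 2^5` (or any polynomial bound, e.g. images of
functions `Fin 5 → Option (V × Bool)`: `(2 n + 1)^5`) pairs `(A, B)`, so that the proportion of the bad graphs is at most
`(2 n + 1)^5 exp(5 - ε² n / 2) → 0`. -/
def S_Prob : Prop :=
  ∀ ε : ℝ, 0 < ε → Filter.Tendsto (fun n : ℕ =>
    (Nat.card {G : SimpleGraph (Fin n) // Good ε G} : ℝ) / (2 : ℝ) ^ (n.choose 2)) Filter.atTop (nhds 1)

end Pool.Agent.H60.EP
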