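import Pool.Agent.H60.EP.Cyc
import Pool.Agent.H60.EP.Defs

/-!
# Good graphs have routings with equal loads
-/

set_option autoImplicit false

open Finset

namespace Pool.Agent.H60.EP

variable {V : Type} [Fintype V]

theorem lowQ {G : SimpleGraph V} (h : Good (1 / 1000000) G) (A B : Finset V) (hd : Disjoint A B)
    (hc : A.card + B.card ≤ 5) :
    ((1 / 2 : ℚ) ^ (A.card + B.card) - 1 / 1000000) * Fintype.card V ≤ cnt G A B := by
  have h1 := h A B hd hc
  have h2 : ((((1 / 2 : ℚ) ^ (A.card + B.card) - 1 / 1000000) * Fintype.card V : ℚ) : ℝ) ≤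
      ((cnt G A B : ℚ) : ℝ) := by
    push_cast
    exact h1
  exact_mod_cast h2

open scoped Classical in
theorem card_four (G : SimpleGraph V) {i j : V} (hij : i ≠ j) :
    cnt G {i, j} ∅ + cnt G {i} {j} + cnt G {j} {i} + cnt G ∅ {i, j} ≤ Fintype.card V := by
  unfold cnt
  simp only [card_filter]
  rw [← sum_add_distrib, ← sum_add_distrib, ← sum_add_distrib, ← card_univ, card_eq_sum_ones]
  refine sum_le_sum fun v _ => ?_
  by_cases h1 : G.Adj v i <;> by_cases h2 : G.Adj v j <;> by_cases h3 : v = i <;> by_cases h4 : v = j <;>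
    simp [h1, h2, h3, h4]

theorem two_lo {G : SimpleGraph V} (h : Good (1 / 1000000) G) (A B : Finset V) (hd : Disjoint A B)
    (hc : A.card + B.card = 2) : (249999 / 1000000 : ℚ) * Fintype.card V ≤ cnt G A B := by
  have h1 := lowQ h A B hd (by omega)
  rw [hc] at h1
  refine le_trans (le_of_eq ?_) h1
  norm_num

open scoped Classical in
theorem two_all {G : SimpleGraph V} (h : Good (1 / 1000000) G) {i j : V} (hij : i ≠ j) :
    ((249999 / 1000000 : ℚ) * Fintype.card V ≤ cnt G {i, j} ∅ ∧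
      (cnt G {i, j} ∅ : ℚ) ≤ 250003 / 1000000 * Fintype.card V) ∧
    ((249999 / 1000000 : ℚ) * Fintype.card V ≤ cnt G {i} {j} ∧
      (cnt G {i} {j} : ℚ) ≤ 250003 / 1000000 * Fintype.card V) := by
  have a1 := two_lo h {i, j} ∅ (disjoint_empty_right _) (by simp [hij])
  have a2 := two_lo h {i} {j} (by simp [hij]) (by simp)
  have a3 := two_lo h {j} {i} (by simp [hij.symm]) (by simp)
  have a4 := two_lo h ∅ {i, j} (disjoint_empty_left _) (by simp [hij])
  have a5 : (cnt G {i, j} ∅ + cnt G {i} {j} + cnt G {j} {i} + cnt G ∅ {i, j} : ℚ) ≤ Fintype.card V := by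
    exact_mod_cast card_four G hij
  refine ⟨⟨a1, ?_⟩, a2, ?_⟩ <;> linarith

open scoped Classical in
/-- the common neighbours -/
noncomputable def cd (G : SimpleGraph V) (i j : V) : ℕ := cnt G {i, j} ∅

theorem cd_symm (G : SimpleGraph V) (i j : V) : cd G i j = cd G j i := by
  classical
  unfold cd
  rw [Finset.pair_comm]

open scoped Classical in
/-- the uniform routing -/
noncomputable def w0 (G : SimpleGraph V) (i v j : V) : ℚ := if Cherry G i v j then 1 / (cd G i j : ℚ) else 0

omit [Fintype V] in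
theorem cherry_symm {G : SimpleGraph V} {i v j : V} (h : Cherry G i v j) : Cherry G j v i :=
  ⟨h.1.symm, fun h' => h.2.1 h'.symm, h.2.2.2.symm, h.2.2.1.symm⟩

theorem w0_symm (G : SimpleGraph V) (i v j : V) : w0 G i v j = w0 G j v i := by
  unfold w0
  by_cases h : Cherry G i v j
  · rw [if_pos h, if_pos (cherry_symm h), cd_symm]
  · rw [if_neg h, if_neg (fun h' => h (cherry_symm h'))]

open scoped Classical in
theorem w0_sum {G : SimpleGraph V} (h : Good (1 / 1000000) G) (hn : 0 < Fintype.card V) {i j : V}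
    (hij : i ≠ j) (ha : ¬ G.Adj i j) : ∑ v, w0 G i v j = 1 := by
  have hnq : (0 : ℚ) < Fintype.card V := by exact_mod_cast hn
  have h1 := (two_all h hij).1.1
  have h2 : (0 : ℚ) < cd G i j := by
    unfold cd
    refine lt_of_lt_of_le ?_ h1
    positivity
  have h3 : ∑ v, w0 G i v j = (cd G i j : ℚ) * (1 / (cd G i j : ℚ)) := by
    have h4 : (cd G i j : ℚ) = ∑ v, if Cherry G i v j then (1 : ℚ) else 0 := by
      unfold cd cnt
      rw [card_filter]
      push_cast
      refine sum_congr rfl fun v _ => ?_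
      have h5 : (v ∉ ({i, j} : Finset V) ∧ v ∉ (∅ : Finset V) ∧ (∀ a ∈ ({i, j} : Finset V), G.Adj v a) ∧
          ∀ b ∈ (∅ : Finset V), ¬ G.Adj v b) ↔ Cherry G i v j := by
        constructor
        · rintro ⟨_, _, h6, _⟩
          exact ⟨hij, ha, (h6 i (by simp)).symm, h6 j (by simp)⟩
        · rintro ⟨_, _, h6, h7⟩
          refine ⟨?_, by simp, ?_, by simp⟩
          · simp only [mem_insert, mem_singleton, not_or]
            exact ⟨h6.ne', h7.ne⟩
          · intro a ha'
            simp only [mem_insert, mem_singleton] at ha'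
            rcases ha' with rfl | rfl
            · exact h6.symm
            · exact h7
      simp only [h5]
    rw [h4, sum_mul]
    refine sum_congr rfl fun v _ => ?_
    rw [← h4]
    unfold w0
    split <;> simp
  rw [h3]
  field_simp

open scoped Classical in
/-- one half of the load -/
theorem half_load {G : SimpleGraph V} (h : Good (1 / 1000000) G) (hn : 0 < Fintype.card V) {u v : V}
    (ha : G.Adj u v) : (249999 / 250003 : ℚ) ≤ ∑ j, w0 G u v j ∧ ∑ j, w0 G u v j ≤ 250003 / 249999 := by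
  have hnq : (0 : ℚ) < Fintype.card V := by exact_mod_cast hn
  have e1 : ∑ j, w0 G u v j = ∑ j ∈ univ.filter (fun j => Cherry G u v j), 1 / (cd G u j : ℚ) := by
    unfold w0
    rw [sum_filter]
  have e2 : ((univ.filter (fun j => Cherry G u v j)).card : ℚ) = cnt G {v} {u} := by
    unfold cnt
    congr 2
    ext j
    simp only [mem_filter, mem_univ, true_and, mem_singleton, forall_eq]
    constructor
    · rintro ⟨h1, h2, h3, h4⟩
      exact ⟨h4.ne', h1.symm, h4.symm, fun h' => h2 h'.symm⟩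
    · rintro ⟨h1, h2, h3, h4⟩
      exact ⟨Ne.symm h2, fun h' => h4 h'.symm, ha, h3.symm⟩
  have e3 := (two_all h ha.ne').2
  rw [← e2] at e3
  set n : ℚ := ((Fintype.card V : ℕ) : ℚ) with hnd
  set s := univ.filter (fun j => Cherry G u v j) with hs
  have b : ∀ j ∈ s, 1 / (250003 / 1000000 * n) ≤ 1 / (cd G u j : ℚ) ∧
      1 / (cd G u j : ℚ) ≤ 1 / (249999 / 1000000 * n) := by
    intro j hj
    have hc := (mem_filter.1 hj).2
    have e4 := (two_all h hc.1).1
    have e5 : (0 : ℚ) < 249999 / 1000000 * n := by positivity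
    exact ⟨one_div_le_one_div_of_le (lt_of_lt_of_le e5 e4.1) e4.2, one_div_le_one_div_of_le e5 e4.1⟩
  have l1 : (s.card : ℚ) * (1 / (250003 / 1000000 * n)) ≤ ∑ j ∈ s, 1 / (cd G u j : ℚ) := by
    have := card_nsmul_le_sum s (fun j => 1 / (cd G u j : ℚ)) _ (fun j hj => (b j hj).1)
    rwa [nsmul_eq_mul] at this
  have l2 : ∑ j ∈ s, 1 / (cd G u j : ℚ) ≤ (s.card : ℚ) * (1 / (249999 / 1000000 * n)) := by
    have := sum_le_card_nsmul s (fun j => 1 / (cd G u j : ℚ)) _ (fun j hj => (b j hj).2)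
    rwa [nsmul_eq_mul] at this
  rw [e1]
  constructor
  · refine le_trans ?_ l1
    rw [mul_one_div, le_div_iff₀ (by positivity)]
    have := e3.1
    linarith
  · refine l2.trans ?_
    rw [mul_one_div, div_le_iff₀ (by positivity)]
    have := e3.2
    linarith

open scoped Classical in
theorem load_bd {G : SimpleGraph V} (h : Good (1 / 1000000) G) (hn : 0 < Fintype.card V)
    (x : G.edgeSet) : (499998 / 250003 : ℚ) ≤ loadE (w0 G) x ∧ loadE (w0 G) x ≤ 500006 / 249999 := by
  obtain ⟨x, hx⟩ := x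
  induction x with
  | _ a b =>
  have ha : G.Adj a b := hx
  have e1 := half_load h hn ha
  have e2 := half_load h hn ha.symm
  have e3 : loadE (w0 G) s(a, b) = ∑ j, w0 G a b j + ∑ j, w0 G b a j := rfl
  simp only [e3]
  constructor <;> linarith [e1.1, e1.2, e2.1, e2.2]

omit [Fintype V] in
/-- consistent orientations of two edges -/
theorem orient (G : SimpleGraph V) (x x' : G.edgeSet) : ∃ a b a' b' : V, G.Adj a b ∧ G.Adj a' b' ∧
    a ≠ b' ∧ b ≠ a' ∧ (x : Sym2 V) = s(a, b) ∧ (x' : Sym2 V) = s(a', b') := by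
  obtain ⟨x, hx⟩ := x
  obtain ⟨x', hx'⟩ := x'
  induction x with
  | _ a b =>
  induction x' with
  | _ a' b' =>
  have h1 : G.Adj a b := hx
  have h2 : G.Adj a' b' := hx'
  by_cases h3 : a ≠ b' ∧ b ≠ a'
  · exact ⟨a, b, a', b', h1, h2, h3.1, h3.2, rfl, rfl⟩
  · refine ⟨a, b, b', a', h1, h2.symm, ?_, ?_, rfl, Sym2.eq_swap⟩
    · rintro rfl
      apply h3
      exact ⟨h2.ne, h1.ne'⟩
    · rintro rfl
      apply h3
      exact ⟨h1.ne, h2.ne'⟩

open scoped Classical in
theorem kappa {G : SimpleGraph V} (h : Good (1 / 1000000) G) (x x' : G.edgeSet) :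
    (Fintype.card V : ℚ) ^ 2 / 1000 ≤
      ((univ.filter fun y : G.edgeSet => Opp G x y ∧ Opp G x' y).card : ℚ) := by
  obtain ⟨a, b, a', b', h1, h2, h3, h4, hx, hx'⟩ := orient G x x'
  set n : ℚ := ((Fintype.card V : ℕ) : ℚ) with hnd
  have hn0 : 0 ≤ n := by rw [hnd]; positivity
  set C : Finset V := univ.filter fun v => v ∉ ({b, b'} : Finset V) ∧ v ∉ ({a, a'} : Finset V) ∧
    (∀ z ∈ ({b, b'} : Finset V), G.Adj v z) ∧ ∀ z ∈ ({a, a'} : Finset V), ¬ G.Adj v z with hC
  set D : V → Finset V := fun c => univ.filter fun v => v ∉ ({a, a', c} : Finset V) ∧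
    v ∉ ({b, b'} : Finset V) ∧ (∀ z ∈ ({a, a', c} : Finset V), G.Adj v z) ∧
    ∀ z ∈ ({b, b'} : Finset V), ¬ G.Adj v z with hD
  have pw : ∀ k : ℕ, k ≤ 4 → (1 / 16 : ℚ) ≤ (1 / 2 : ℚ) ^ k := by
    intro k hk
    calc (1 / 16 : ℚ) = (1 / 2) ^ 4 := by norm_num
      _ ≤ (1 / 2 : ℚ) ^ k := pow_le_pow_of_le_one (by norm_num) (by norm_num) hk
  have pw5 : ∀ k : ℕ, k ≤ 5 → (1 / 32 : ℚ) ≤ (1 / 2 : ℚ) ^ k := by
    intro k hk
    calc (1 / 32 : ℚ) = (1 / 2) ^ 5 := by norm_num
      _ ≤ (1 / 2 : ℚ) ^ k := pow_le_pow_of_le_one (by norm_num) (by norm_num) hk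
  have c2 : ∀ p q : V, ({p, q} : Finset V).card ≤ 2 := fun p q => card_le_two
  have c3 : ∀ p q r : V, ({p, q, r} : Finset V).card ≤ 3 := fun p q r => card_le_three
  have hCc : (1 / 16 - 1 / 1000000) * n ≤ (C.card : ℚ) := by
    have hd : Disjoint ({b, b'} : Finset V) {a, a'} := by
      rw [Finset.disjoint_left]
      intro z hz hz'
      simp only [mem_insert, mem_singleton] at hz hz'
      rcases hz with rfl | rfl <;> rcases hz' with h5 | h5
      · exact h1.ne' h5
      · exact h4 h5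
      · exact h3 h5.symm
      · exact h2.ne' h5
    have hk : ({b, b'} : Finset V).card + ({a, a'} : Finset V).card ≤ 4 := by
      have := c2 b b'; have := c2 a a'; omega
    have e1 := lowQ h {b, b'} {a, a'} hd (by omega)
    refine le_trans ?_ e1
    exact mul_le_mul_of_nonneg_right (by linarith [pw _ hk]) hn0
  have hDc : ∀ c ∈ C, (1 / 32 - 1 / 1000000) * n ≤ ((D c).card : ℚ) := by
    intro c hc
    have hc' := (mem_filter.1 hc).2
    have hd : Disjoint ({a, a', c} : Finset V) {b, b'} := by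
      rw [Finset.disjoint_left]
      intro z hz hz'
      simp only [mem_insert, mem_singleton] at hz hz'
      rcases hz with rfl | rfl | rfl
      · rcases hz' with h5 | h5
        · exact h1.ne h5
        · exact h3 h5
      · rcases hz' with h5 | h5
        · exact h4 h5.symm
        · exact h2.ne h5
      · apply hc'.1
        simpa using hz'
    have hk : ({a, a', c} : Finset V).card + ({b, b'} : Finset V).card ≤ 5 := by
      have := c2 b b'; have := c3 a a' c; omega
    have e1 := lowQ h {a, a', c} {b, b'} hd hk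
    refine le_trans ?_ e1
    exact mul_le_mul_of_nonneg_right (by linarith [pw5 _ hk]) hn0
  have hR : ∀ c ∈ C, ∀ d ∈ D c, R G a b c d ∧ R G a' b' c d := by
    intro c hc d hd
    obtain ⟨p1, p2, p3, p4⟩ := (mem_filter.1 hc).2
    obtain ⟨q1, q2, q3, q4⟩ := (mem_filter.1 hd).2
    simp only [mem_insert, mem_singleton, not_or] at p1 p2 q1 q2
    have u1 := p3 b (by simp)
    have u2 := p3 b' (by simp)
    have u3 := p4 a (by simp)
    have u4 := p4 a' (by simp)
    have v1 := q3 a (by simp)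
    have v2 := q3 a' (by simp)
    have v3 := q3 c (by simp)
    have v4 := q4 b (by simp)
    have v5 := q4 b' (by simp)
    exact ⟨⟨h1, u1.symm, v3.symm, v1, fun h' => u3 h'.symm, fun h' => v4 h'.symm, Ne.symm p2.1,
        Ne.symm q2.1⟩,
      ⟨h2, u2.symm, v3.symm, v2, fun h' => u4 h'.symm, fun h' => v5 h'.symm, Ne.symm p2.2,
        Ne.symm q2.2⟩⟩
  set f : (Σ _ : V, V) → G.edgeSet := fun z => if hz : G.Adj z.1 z.2 then ⟨s(z.1, z.2), hz⟩ else x with hf
  have hcard : (C.sigma D).card ≤ (univ.filter fun y : G.edgeSet => Opp G x y ∧ Opp G x' y).card := by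
    refine card_le_card_of_injOn f ?_ ?_
    · rintro ⟨c, d⟩ hz
      have hz' := mem_sigma.1 (mem_coe.1 hz)
      have hr := hR c hz'.1 d hz'.2
      have hcd : G.Adj c d := hr.1.2.2.1
      have hfz : f ⟨c, d⟩ = ⟨s(c, d), hcd⟩ := by simp only [hf, dif_pos hcd]
      rw [hfz]
      refine mem_coe.2 (mem_filter.2 ⟨mem_univ _, ⟨a, b, c, d, hr.1, hx, rfl⟩, ⟨a', b', c, d, hr.2, hx', rfl⟩⟩)
    · rintro ⟨c, d⟩ hz ⟨c', d'⟩ hz2 he
      have hz' := mem_sigma.1 (mem_coe.1 hz)
      have hz2' := mem_sigma.1 (mem_coe.1 hz2)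
      have hr := hR c hz'.1 d hz'.2
      have hr2 := hR c' hz2'.1 d' hz2'.2
      have hcd : G.Adj c d := hr.1.2.2.1
      have hcd2 : G.Adj c' d' := hr2.1.2.2.1
      have hfz : f ⟨c, d⟩ = ⟨s(c, d), hcd⟩ := by simp only [hf, dif_pos hcd]
      have hfz2 : f ⟨c', d'⟩ = ⟨s(c', d'), hcd2⟩ := by simp only [hf, dif_pos hcd2]
      rw [hfz, hfz2] at he
      have he2 := congrArg Subtype.val he
      simp only [Sym2.eq_iff] at he2
      rcases he2 with ⟨e1, e2⟩ | ⟨e1, e2⟩
      · subst e1; subst e2; rfl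
      · exfalso
        subst e1; subst e2
        exact hr2.1.2.2.2.2.2.1 hr.1.2.1
  have hc2 : (1 / 16 - 1 / 1000000) * n * ((1 / 32 - 1 / 1000000) * n) ≤ ((C.sigma D).card : ℚ) := by
    rw [card_sigma]
    push_cast
    have e1 := card_nsmul_le_sum C (fun c => ((D c).card : ℚ)) _ hDc
    rw [nsmul_eq_mul] at e1
    refine le_trans ?_ e1
    exact mul_le_mul_of_nonneg_right hCc (mul_nonneg (by norm_num) hn0)
  have hc3 : ((C.sigma D).card : ℚ) ≤
      ((univ.filter fun y : G.edgeSet => Opp G x y ∧ Opp G x' y).card : ℚ) := by exact_mod_cast hcard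
  refine le_trans ?_ (hc2.trans hc3)
  nlinarith [mul_nonneg hn0 hn0]

open scoped Classical in
/-- **Routings with equal loads.** -/
theorem weights {G : SimpleGraph V} (h : Good (1 / 1000000) G) (hn : 0 < Fintype.card V) :
    ∃ (c : ℚ) (w : V → V → V → ℚ), (∀ i v j, 0 ≤ w i v j) ∧ (∀ i v j, w i v j = w j v i) ∧
      (∀ i v j, ¬ Cherry G i v j → w i v j = 0) ∧
      (∀ i j, i ≠ j → ¬ G.Adj i j → ∑ v, w i v j = 1) ∧ ∀ u v, G.Adj u v → load w u v = c := by
  have hnq : (0 : ℚ) < Fintype.card V := by exact_mod_cast hn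
  set c : ℚ := (∑ x : G.edgeSet, loadE (w0 G) x) / (Fintype.card G.edgeSet : ℚ) with hc
  have hsum : ∑ x : G.edgeSet, (loadE (w0 G) x - c) = 0 := by
    rw [sum_sub_distrib, sum_const, card_univ, nsmul_eq_mul, hc]
    by_cases h0 : (Fintype.card G.edgeSet : ℚ) = 0
    · have h1 : Fintype.card G.edgeSet = 0 := by exact_mod_cast h0
      have h2 : IsEmpty G.edgeSet := Fintype.card_eq_zero_iff.1 h1
      simp
    · field_simp
      ring
  have hη : ∀ x : G.edgeSet, |loadE (w0 G) x - c| ≤ 1 / 4000 := by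
    intro x
    have hX : 0 < Fintype.card G.edgeSet := Fintype.card_pos_iff.2 ⟨x⟩
    have hXq : (0 : ℚ) < Fintype.card G.edgeSet := by exact_mod_cast hX
    have c1 : (499998 / 250003 : ℚ) ≤ c := by
      rw [hc, le_div_iff₀ hXq]
      have := card_nsmul_le_sum (univ : Finset G.edgeSet) (fun x : G.edgeSet => loadE (w0 G) x) _
        (fun y _ => (load_bd h hn y).1)
      rw [nsmul_eq_mul, card_univ] at this
      linarith
    have c2 : c ≤ 500006 / 249999 := by
      rw [hc, div_le_iff₀ hXq]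
      have := sum_le_card_nsmul (univ : Finset G.edgeSet) (fun x : G.edgeSet => loadE (w0 G) x) _
        (fun y _ => (load_bd h hn y).2)
      rw [nsmul_eq_mul, card_univ] at this
      linarith
    have l := load_bd h hn x
    rw [abs_le]
    constructor <;> linarith [l.1, l.2]
  obtain ⟨w, w1, w2, w3, w4, w5⟩ := equalise G ((Fintype.card V : ℚ) ^ 2 / 1000) (1 / 4000) c
    (by positivity) (kappa h) (w0 G) (w0_symm G)
    (fun i v j hc => by unfold w0; rw [if_neg hc]) (fun i v j hc => by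
      unfold w0
      rw [if_pos hc]
      have e1 := (two_all h hc.1).1
      have e2 : (0 : ℚ) < cd G i j := by
        unfold cd
        refine lt_of_lt_of_le ?_ e1.1
        positivity
      have e3 : (cd G i j : ℚ) ≤ Fintype.card V := by
        refine e1.2.trans ?_
        linarith
      rw [le_div_iff₀ e2]
      have e4 : 4 * (Fintype.card V : ℚ) * (1 / 4000 / ((Fintype.card V : ℚ) ^ 2 / 1000)) =
          1 / (Fintype.card V : ℚ) := by
        field_simp
        norm_num
      rw [e4, one_div, inv_mul_le_iff₀ hnq]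
      linarith) hη (by norm_num) hsum
  exact ⟨c, w, w1, w2, w3, fun i j hij ha => by rw [w4, w0_sum h hn hij ha], w5⟩

end Pool.Agent.H60.EP
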