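import Pool.Agent.H60.EP.Flow

/-!
# Equalising the loads of the edges by transfers along induced 4-cycles
-/

set_option autoImplicit false

open Finset

namespace Pool.Agent.H60.EP

variable {V : Type}

/-- `a b c d` is an induced cycle of length four -/
def R (G : SimpleGraph V) (a b c d : V) : Prop :=
  G.Adj a b ∧ G.Adj b c ∧ G.Adj c d ∧ G.Adj d a ∧ ¬ G.Adj a c ∧ ¬ G.Adj b d ∧ a ≠ c ∧ b ≠ d

theorem R.rot2 {G : SimpleGraph V} {a b c d : V} (h : R G a b c d) : R G c d a b := by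
  obtain ⟨h1, h2, h3, h4, h5, h6, h7, h8⟩ := h
  exact ⟨h3, h4, h1, h2, fun h => h5 h.symm, fun h => h6 h.symm, h7.symm, h8.symm⟩

theorem R.flip {G : SimpleGraph V} {a b c d : V} (h : R G a b c d) : R G b a d c := by
  obtain ⟨h1, h2, h3, h4, h5, h6, h7, h8⟩ := h
  exact ⟨h1.symm, h4.symm, h3.symm, h2.symm, h6, h5, h8, h7⟩

/-- the edges `x` and `y` are opposite in an induced cycle of length four -/
def Opp (G : SimpleGraph V) (x y : Sym2 V) : Prop :=
  ∃ a b c d, R G a b c d ∧ x = s(a, b) ∧ y = s(c, d)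

theorem Opp.symm {G : SimpleGraph V} {x y : Sym2 V} (h : Opp G x y) : Opp G y x := by
  obtain ⟨a, b, c, d, h, h1, h2⟩ := h
  exact ⟨c, d, a, b, h.rot2, h2, h1⟩

/-- `i v j` is an induced path -/
def Cherry (G : SimpleGraph V) (i v j : V) : Prop :=
  i ≠ j ∧ ¬ G.Adj i j ∧ G.Adj i v ∧ G.Adj v j

open scoped Classical in
/-- the transfers in terms of vertices -/
noncomputable def T (G : SimpleGraph V) (F : G.edgeSet → G.edgeSet → ℚ) (a b c d : V) : ℚ :=
  if h : R G a b c d then F ⟨s(a, b), h.1⟩ ⟨s(c, d), h.2.2.1⟩ else 0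

theorem T_flip (G : SimpleGraph V) (F : G.edgeSet → G.edgeSet → ℚ) (a b c d : V) :
    T G F a b c d = T G F b a d c := by
  classical
  unfold T
  by_cases h : R G a b c d
  · rw [dif_pos h, dif_pos h.flip]
    have e1 : (⟨s(a, b), h.1⟩ : G.edgeSet) = ⟨s(b, a), h.flip.1⟩ := Subtype.ext Sym2.eq_swap
    have e2 : (⟨s(c, d), h.2.2.1⟩ : G.edgeSet) = ⟨s(d, c), h.flip.2.2.1⟩ := Subtype.ext Sym2.eq_swap
    rw [e1, e2]
  · rw [dif_neg h, dif_neg (fun h' => h h'.flip)]

theorem T_transpose (G : SimpleGraph V) (F : G.edgeSet → G.edgeSet → ℚ) (a b c d : V) :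
    T G F c d a b = T G (fun x y => F y x) a b c d := by
  classical
  unfold T
  by_cases h : R G a b c d
  · rw [dif_pos h, dif_pos h.rot2]
  · rw [dif_neg h, dif_neg (fun h' => h h'.rot2)]

theorem T_zero (G : SimpleGraph V) (F : G.edgeSet → G.edgeSet → ℚ) {a b c d : V}
    (h : ¬ R G a b c d) : T G F a b c d = 0 := by
  classical
  unfold T
  rw [dif_neg h]

theorem T_le (G : SimpleGraph V) (F : G.edgeSet → G.edgeSet → ℚ) (M : ℚ) (h0 : 0 ≤ M)
    (hF : ∀ x y, |F x y| ≤ M) (a b c d : V) : |T G F a b c d| ≤ M := by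
  classical
  unfold T
  by_cases h : R G a b c d
  · rw [dif_pos h]; exact hF _ _
  · rw [dif_neg h, abs_zero]; exact h0

open scoped Classical in
theorem sumT [Fintype V] (G : SimpleGraph V) (F : G.edgeSet → G.edgeSet → ℚ)
    (hF : ∀ x y : G.edgeSet, ¬ Opp G x y → F x y = 0) (a b : V) (h : G.Adj a b) :
    ∑ c, ∑ d, T G F a b c d = ∑ y, F ⟨s(a, b), h⟩ y := by
  have h1 : ∑ c, ∑ d, T G F a b c d =
      ∑ p ∈ univ.filter (fun p : V × V => R G a b p.1 p.2), T G F a b p.1 p.2 := by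
    rw [← Fintype.sum_prod_type']
    symm
    refine sum_subset (filter_subset _ _) ?_
    intro p _ hp
    apply T_zero
    intro h'
    exact hp (mem_filter.2 ⟨mem_univ _, h'⟩)
  have h2 : ∑ y, F ⟨s(a, b), h⟩ y =
      ∑ y ∈ univ.filter (fun y : G.edgeSet => Opp G s(a, b) y), F ⟨s(a, b), h⟩ y := by
    symm
    refine sum_subset (filter_subset _ _) ?_
    intro y _ hy
    apply hF
    intro h'
    exact hy (mem_filter.2 ⟨mem_univ _, h'⟩)
  rw [h1, h2]
  refine sum_bij (fun p hp => (⟨s(p.1, p.2), (mem_filter.1 hp).2.2.2.1⟩ : G.edgeSet)) ?_ ?_ ?_ ?_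
  · intro p hp
    exact mem_filter.2 ⟨mem_univ _, ⟨a, b, p.1, p.2, (mem_filter.1 hp).2, rfl, rfl⟩⟩
  · intro p hp q hq hpq
    have h3 := congrArg Subtype.val hpq
    simp only at h3
    rw [Sym2.eq_iff] at h3
    rcases h3 with ⟨h3, h4⟩ | ⟨h3, h4⟩
    · exact Prod.ext h3 h4
    · exfalso
      have hp' := (mem_filter.1 hp).2
      have hq' := (mem_filter.1 hq).2
      rw [← h3, ← h4] at hq'
      exact hq'.2.2.2.2.1 hp'.2.2.2.1.symm
  · intro y hy
    obtain ⟨a', b', c, d, hR, e1, e2⟩ := (mem_filter.1 hy).2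
    rw [Sym2.eq_iff] at e1
    rcases e1 with ⟨e1, e1'⟩ | ⟨e1, e1'⟩
    · subst e1; subst e1'
      exact ⟨(c, d), mem_filter.2 ⟨mem_univ _, hR⟩, Subtype.ext e2.symm⟩
    · subst e1; subst e1'
      refine ⟨(d, c), mem_filter.2 ⟨mem_univ _, hR.flip⟩, Subtype.ext ?_⟩
      rw [e2]
      exact Sym2.eq_swap
  · intro p hp
    unfold T
    rw [dif_pos (mem_filter.1 hp).2]

/-- the perturbation of the weights -/
noncomputable def dl [Fintype V] (G : SimpleGraph V) (F : G.edgeSet → G.edgeSet → ℚ) (i v j : V) : ℚ :=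
  ∑ x, (T G F i x j v + T G F j x i v - T G F i v j x - T G F j v i x)

theorem dl_symm [Fintype V] (G : SimpleGraph V) (F : G.edgeSet → G.edgeSet → ℚ) (i v j : V) :
    dl G F i v j = dl G F j v i := by
  unfold dl
  exact sum_congr rfl fun x _ => by ring

theorem dl_sum [Fintype V] (G : SimpleGraph V) (F : G.edgeSet → G.edgeSet → ℚ) (i j : V) :
    ∑ v, dl G F i v j = 0 := by
  unfold dl
  simp only [sum_sub_distrib, sum_add_distrib]
  have e1 : ∑ v, ∑ x, T G F i x j v = ∑ v, ∑ x, T G F i v j x := sum_comm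
  have e2 : ∑ v, ∑ x, T G F j x i v = ∑ v, ∑ x, T G F j v i x := sum_comm
  rw [e1, e2]
  ring

theorem dl_zero [Fintype V] (G : SimpleGraph V) (F : G.edgeSet → G.edgeSet → ℚ) (i v j : V)
    (h : ¬ Cherry G i v j) : dl G F i v j = 0 := by
  unfold dl
  refine sum_eq_zero fun x _ => ?_
  have h1 : ¬ R G i x j v := fun h' => h ⟨h'.2.2.2.2.2.2.1, h'.2.2.2.2.1, h'.2.2.2.1.symm, h'.2.2.1.symm⟩
  have h2 : ¬ R G j x i v := fun h' =>
    h ⟨h'.2.2.2.2.2.2.1.symm, fun h'' => h'.2.2.2.2.1 h''.symm, h'.2.2.1, h'.2.2.2.1⟩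
  have h3 : ¬ R G i v j x := fun h' => h ⟨h'.2.2.2.2.2.2.1, h'.2.2.2.2.1, h'.1, h'.2.1⟩
  have h4 : ¬ R G j v i x := fun h' =>
    h ⟨h'.2.2.2.2.2.2.1.symm, fun h'' => h'.2.2.2.2.1 h''.symm, h'.2.1.symm, h'.1.symm⟩
  rw [T_zero G F h1, T_zero G F h2, T_zero G F h3, T_zero G F h4]
  ring

theorem dl_le [Fintype V] (G : SimpleGraph V) (F : G.edgeSet → G.edgeSet → ℚ) (M : ℚ) (h0 : 0 ≤ M)
    (hF : ∀ x y, |F x y| ≤ M) (i v j : V) : |dl G F i v j| ≤ 4 * Fintype.card V * M := by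
  unfold dl
  refine (abs_sum_le_sum_abs _ _).trans ?_
  have h1 : ∀ x ∈ (univ : Finset V),
      |T G F i x j v + T G F j x i v - T G F i v j x - T G F j v i x| ≤ 4 * M := by
    intro x _
    have a1 := abs_le.1 (T_le G F M h0 hF i x j v)
    have a2 := abs_le.1 (T_le G F M h0 hF j x i v)
    have a3 := abs_le.1 (T_le G F M h0 hF i v j x)
    have a4 := abs_le.1 (T_le G F M h0 hF j v i x)
    rw [abs_le]
    constructor <;> linarith [a1.1, a1.2, a2.1, a2.2, a3.1, a3.2, a4.1, a4.2]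
  refine (sum_le_card_nsmul _ _ _ h1).trans (le_of_eq ?_)
  rw [nsmul_eq_mul, card_univ]
  ring

theorem dl_load [Fintype V] (G : SimpleGraph V) (F : G.edgeSet → G.edgeSet → ℚ) (u v : V) :
    ∑ j, dl G F u v j + ∑ j, dl G F v u j =
      2 * (∑ j, ∑ x, T G F j x u v - ∑ j, ∑ x, T G F u v j x) := by
  unfold dl
  simp only [sum_sub_distrib, sum_add_distrib]
  have e1 : ∑ j, ∑ x, T G F j v u x = ∑ j, ∑ x, T G F v x j u := by
    rw [sum_comm]
    exact sum_congr rfl fun x _ => sum_congr rfl fun j _ => T_flip G F _ _ _ _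
  have e2 : ∑ j, ∑ x, T G F j u v x = ∑ j, ∑ x, T G F u x j v := by
    rw [sum_comm]
    exact sum_congr rfl fun x _ => sum_congr rfl fun j _ => T_flip G F _ _ _ _
  have e3 : ∑ j, ∑ x, T G F j x v u = ∑ j, ∑ x, T G F j x u v := by
    rw [sum_comm]
    exact sum_congr rfl fun x _ => sum_congr rfl fun j _ => T_flip G F _ _ _ _
  have e4 : ∑ j, ∑ x, T G F v u j x = ∑ j, ∑ x, T G F u v j x := by
    rw [sum_comm]
    exact sum_congr rfl fun x _ => sum_congr rfl fun j _ => T_flip G F _ _ _ _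
  rw [e1, e2, e3, e4]
  ring

/-- the load of a pair of vertices -/
def load [Fintype V] (w : V → V → V → ℚ) (u v : V) : ℚ := ∑ j, w u v j + ∑ j, w v u j

/-- the load as a function of the edge -/
def loadE [Fintype V] (w : V → V → V → ℚ) : Sym2 V → ℚ :=
  Sym2.lift ⟨fun u v => load w u v, fun u v => by unfold load; ring⟩

open scoped Classical in
/-- **Equalisation.** -/
theorem equalise [Fintype V] (G : SimpleGraph V) (K η c : ℚ) (hK : 0 < K)
    (hκ : ∀ x x' : G.edgeSet, K ≤ ((univ.filter fun y : G.edgeSet => Opp G x y ∧ Opp G x' y).card : ℚ))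
    (w0 : V → V → V → ℚ) (hs : ∀ i v j, w0 i v j = w0 j v i)
    (h0 : ∀ i v j, ¬ Cherry G i v j → w0 i v j = 0)
    (h1 : ∀ i v j, Cherry G i v j → 4 * Fintype.card V * (η / K) ≤ w0 i v j)
    (hη : ∀ x : G.edgeSet, |loadE w0 x - c| ≤ η) (hη0 : 0 ≤ η)
    (hsum : ∑ x : G.edgeSet, (loadE w0 x - c) = 0) :
    ∃ w : V → V → V → ℚ, (∀ i v j, 0 ≤ w i v j) ∧ (∀ i v j, w i v j = w j v i) ∧
      (∀ i v j, ¬ Cherry G i v j → w i v j = 0) ∧ (∀ i j, ∑ v, w i v j = ∑ v, w0 i v j) ∧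
      ∀ u v, G.Adj u v → load w u v = c := by
  obtain ⟨F, hF0, hF1, hF2⟩ := flow (X := G.edgeSet) (fun x y => Opp G x y) (fun x y h => h.symm) K hK hκ
    (fun x => (loadE w0 x - c) / 2) (by rw [← sum_div, hsum, zero_div]) (η / 2) (by
      intro x
      rw [abs_div, abs_of_pos (by norm_num : (0 : ℚ) < 2)]
      exact div_le_div_of_nonneg_right (hη x) (by norm_num))
  have hM : ∀ x y, |F x y| ≤ η / K := by
    intro x y
    refine (hF2 x y).trans (le_of_eq ?_)
    ring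
  have hM0 : 0 ≤ η / K := div_nonneg hη0 hK.le
  refine ⟨fun i v j => w0 i v j + dl G F i v j, ?_, ?_, ?_, ?_, ?_⟩
  · intro i v j
    by_cases h : Cherry G i v j
    · have e1 := abs_le.1 (dl_le G F _ hM0 hM i v j)
      have e2 := h1 i v j h
      simp only
      linarith [e1.1]
    · simp only [h0 i v j h, dl_zero G F i v j h, add_zero, le_refl]
  · intro i v j
    simp only [hs i v j, dl_symm G F i v j]
  · intro i v j h
    simp only [h0 i v j h, dl_zero G F i v j h, add_zero]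
  · intro i j
    simp only [sum_add_distrib, dl_sum G F i j, add_zero]
  · intro u v h
    have e1 : load (fun i v j => w0 i v j + dl G F i v j) u v =
        load w0 u v + (∑ j, dl G F u v j + ∑ j, dl G F v u j) := by
      unfold load
      simp only [sum_add_distrib]
      ring
    have e2 : ∑ j, ∑ x, T G F u v j x = ∑ y, F ⟨s(u, v), h⟩ y := sumT G F hF0 u v h
    have e3 : ∑ j, ∑ x, T G F j x u v = ∑ y, F y ⟨s(u, v), h⟩ := by
      rw [← sumT G (fun x y => F y x) (fun x y hxy => hF0 y x (fun h' => hxy h'.symm)) u v h]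
      exact sum_congr rfl fun j _ => sum_congr rfl fun x _ => T_transpose G F u v j x
    have e4 := hF1 ⟨s(u, v), h⟩
    have e5 : loadE w0 s(u, v) = load w0 u v := rfl
    simp only [e5] at e4
    rw [e1, dl_load, e2, e3]
    linarith

end Pool.Agent.H60.EP
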