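import Pool.Agent.H60.EP.Walk
import Pool.Agent.H60.EP.Cond

/-!
# Almost all graphs are edge-path-regular
-/

set_option autoImplicit false

open Finset Filter

namespace Pool.Agent.H60.EP

/-- graphs and sets of edges -/
noncomputable def gset (V : Type) : SimpleGraph V ≃ Set {e : Sym2 V // ¬ e.IsDiag} where
  toFun G := fun e => e.1 ∈ G.edgeSet
  invFun s := SimpleGraph.fromEdgeSet (Subtype.val '' s)
  left_inv G := by
    ext u v
    rw [SimpleGraph.fromEdgeSet_adj]
    constructor
    · rintro ⟨⟨x, hx, h1⟩, h2⟩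
      have h3 : x.1 ∈ G.edgeSet := hx
      rw [h1] at h3
      exact h3
    · intro h
      exact ⟨⟨⟨s(u, v), by simpa using h.ne⟩, h, rfl⟩, h.ne⟩
  right_inv s := by
    ext e
    constructor
    · intro h
      have h1 : e.1 ∈ (SimpleGraph.fromEdgeSet (Subtype.val '' s)).edgeSet := h
      rw [SimpleGraph.edgeSet_fromEdgeSet] at h1
      obtain ⟨x, hx, h2⟩ := h1.1
      rw [← Subtype.ext h2]
      exact hx
    · intro h
      have h1 : e.1 ∈ (SimpleGraph.fromEdgeSet (Subtype.val '' s)).edgeSet := by
        rw [SimpleGraph.edgeSet_fromEdgeSet]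
        exact ⟨⟨e, h, rfl⟩, e.2⟩
      exact h1

theorem card_graphs (n : ℕ) : Nat.card (SimpleGraph (Fin n)) = 2 ^ (n.choose 2) := by
  classical
  rw [Nat.card_congr (gset (Fin n)), Nat.card_eq_fintype_card, Fintype.card_set,
    Sym2.card_subtype_not_diag, Fintype.card_fin]

theorem epr_of_good {n : ℕ} (hn : 0 < n) {G : SimpleGraph (Fin n)} (h : Good (1 / 1000000) G) :
    EPR n G := by
  obtain ⟨c, w, w1, w2, w3, w4, w5⟩ := weights h (by rw [Fintype.card_fin]; exact hn)
  exact epr_of_weights G c w w1 w2 w3 w4 w5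

theorem main (hP : S_Prob) : Tendsto (fun n : ℕ =>
    (Nat.card {G : SimpleGraph (Fin n) // EPR n G} : ℝ) / (2 : ℝ) ^ (n.choose 2)) atTop (nhds 1) := by
  refine tendsto_of_tendsto_of_tendsto_of_le_of_le' (hP (1 / 1000000) (by norm_num))
    tendsto_const_nhds ?_ (Eventually.of_forall fun n => ?_)
  · filter_upwards [eventually_gt_atTop 0] with n hn
    refine div_le_div_of_nonneg_right ?_ (by positivity)
    have : Nat.card {G : SimpleGraph (Fin n) // Good (1 / 1000000) G} ≤
        Nat.card {G : SimpleGraph (Fin n) // EPR n G} :=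
      Nat.card_le_card_of_injective
        (fun G : {G : SimpleGraph (Fin n) // Good (1 / 1000000) G} =>
          (⟨G.1, epr_of_good hn G.2⟩ : {G : SimpleGraph (Fin n) // EPR n G}))
        (fun G H h => Subtype.ext (congrArg (fun z => z.1) h))
    exact_mod_cast this
  · rw [div_le_one (by positivity)]
    have : Nat.card {G : SimpleGraph (Fin n) // EPR n G} ≤ Nat.card (SimpleGraph (Fin n)) :=
      Nat.card_le_card_of_injective (fun G => G.1) Subtype.val_injective
    rw [card_graphs] at this
    exact_mod_cast this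

end Pool.Agent.H60.EP
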