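import Mathlib

/-!
# A two-step flow
-/

set_option autoImplicit false

open Finset

namespace Pool.Agent.H60.EP

open scoped Classical in
/-- Let `S` be a symmetric relation on a finite set such that any two elements have at least `K > 0` common
neighbours, and let `d` have the sum zero and `|d| ≤ η`. Then there is a flow `F` along `S` with net outflow `d` and
`|F| ≤ 2 η / K`. -/
theorem flow {X : Type} [Fintype X] (S : X → X → Prop) (hS : ∀ x y, S x y → S y x) (K : ℚ) (hK : 0 < K)
    (hκ : ∀ x x', K ≤ ((univ.filter fun y => S x y ∧ S x' y).card : ℚ)) (d : X → ℚ)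
    (hd : ∑ x, d x = 0) (η : ℚ) (hη : ∀ x, |d x| ≤ η) :
    ∃ F : X → X → ℚ, (∀ x y, ¬ S x y → F x y = 0) ∧
      (∀ x, ∑ y, F x y - ∑ y, F y x = d x) ∧ ∀ x y, |F x y| ≤ 2 * η / K := by
  rcases isEmpty_or_nonempty X with hX | hX
  · exact ⟨fun _ _ => 0, fun x => (hX.false x).elim, fun x => (hX.false x).elim,
      fun x => (hX.false x).elim⟩
  set N : ℚ := ((Fintype.card X : ℕ) : ℚ) with hN
  have hN0 : 0 < N := by
    rw [hN]; exact_mod_cast Fintype.card_pos
  set s : X → X → ℚ := fun x y => if S x y then 1 else 0 with hs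
  have ssymm : ∀ x y, s x y = s y x := by
    intro x y
    simp only [hs]
    by_cases h : S x y
    · rw [if_pos h, if_pos (hS x y h)]
    · rw [if_neg h, if_neg (fun h' => h (hS y x h'))]
  set κ : X → X → ℚ := fun x x' => ∑ y, s x y * s x' y with hκd
  have κsymm : ∀ x y, κ x y = κ y x := by
    intro x y
    simp only [hκd]
    exact sum_congr rfl fun z _ => mul_comm _ _
  have κle : ∀ x x', K ≤ κ x x' := by
    intro x x'
    refine (hκ x x').trans (le_of_eq ?_)
    rw [card_filter]
    push_cast
    simp only [hκd]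
    refine sum_congr rfl fun y _ => ?_
    simp only [hs]
    by_cases h1 : S x y <;> by_cases h2 : S x' y <;> simp [h1, h2]
  have κpos : ∀ x x', 0 < κ x x' := fun x x' => hK.trans_le (κle x x')
  have s0 : ∀ x y, 0 ≤ s x y := by
    intro x y; simp only [hs]; split <;> norm_num
  have s1 : ∀ x y, s x y ≤ 1 := by
    intro x y; simp only [hs]; split <;> norm_num
  have ss : ∀ x y, s x y * s x y = s x y := by
    intro x y; simp only [hs]; split <;> norm_num
  set F : X → X → ℚ := fun x y => s x y *
    (∑ e, s e y * (d x / (N * κ x e)) + ∑ e, s e x * (d e / (N * κ e y))) with hF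
  have η0 : 0 ≤ η := (abs_nonneg _).trans (hη (Classical.arbitrary X))
  have bd : ∀ x e f, |d x / (N * κ e f)| ≤ η / (N * K) := by
    intro x e f
    rw [abs_div, abs_of_pos (mul_pos hN0 (κpos e f))]
    exact div_le_div₀ η0 (hη x) (mul_pos hN0 hK) (mul_le_mul_of_nonneg_left (κle e f) hN0.le)
  have bs : ∀ g : X → ℚ, ∀ t : X → ℚ, (∀ e, 0 ≤ t e) → (∀ e, t e ≤ 1) → (∀ e, |g e| ≤ η / (N * K)) →
      |∑ e, t e * g e| ≤ η / K := by
    intro g t ht0 ht1 hg
    refine (abs_sum_le_sum_abs _ _).trans ?_
    have h1 : ∀ e ∈ (univ : Finset X), |t e * g e| ≤ η / (N * K) := by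
      intro e _
      rw [abs_mul, abs_of_nonneg (ht0 e)]
      calc t e * |g e| ≤ 1 * |g e| := mul_le_mul_of_nonneg_right (ht1 e) (abs_nonneg _)
        _ = |g e| := one_mul _
        _ ≤ _ := hg e
    refine (sum_le_card_nsmul _ _ _ h1).trans (le_of_eq ?_)
    rw [nsmul_eq_mul, card_univ, ← hN]
    field_simp
  refine ⟨F, ?_, ?_, ?_⟩
  · intro x y h
    simp only [hF, hs, if_neg h, zero_mul]
  · intro x
    have e1 : ∑ y, F x y = d x + ∑ y, ∑ e, s x y * (s e x * (d e / (N * κ e y))) := by
      have h1 : ∑ y, F x y = (∑ y, ∑ e, s x y * (s e y * (d x / (N * κ x e)))) +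
          ∑ y, ∑ e, s x y * (s e x * (d e / (N * κ e y))) := by
        rw [← sum_add_distrib]
        refine sum_congr rfl fun y _ => ?_
        simp only [hF]
        rw [mul_add, mul_sum, mul_sum]
      rw [h1]
      congr 1
      rw [sum_comm]
      have h2 : ∀ e ∈ (univ : Finset X), ∑ y, s x y * (s e y * (d x / (N * κ x e))) = d x / N := by
        intro e _
        have h3 : ∑ y, s x y * (s e y * (d x / (N * κ x e))) = κ x e * (d x / (N * κ x e)) := by
          simp only [hκd]
          rw [sum_mul]
          exact sum_congr rfl fun y _ => by ring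
        rw [h3]
        have := (κpos x e).ne'
        field_simp
      rw [sum_congr rfl h2, sum_const, card_univ, nsmul_eq_mul, ← hN]
      field_simp
    have e2 : ∑ y, F y x = (∑ y, ∑ e, s x y * (s e x * (d e / (N * κ e y)))) := by
      have h1 : ∑ y, F y x = (∑ y, ∑ e, s y x * (s e x * (d y / (N * κ y e)))) +
          ∑ y, ∑ e, s y x * (s e y * (d e / (N * κ e x))) := by
        rw [← sum_add_distrib]
        refine sum_congr rfl fun y _ => ?_
        simp only [hF]
        rw [mul_add, mul_sum, mul_sum]
      have h2 : ∑ y, ∑ e, s y x * (s e y * (d e / (N * κ e x))) = 0 := by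
        rw [sum_comm]
        have h3 : ∀ e ∈ (univ : Finset X), ∑ y, s y x * (s e y * (d e / (N * κ e x))) = d e / N := by
          intro e _
          have h4 : ∑ y, s y x * (s e y * (d e / (N * κ e x))) = κ e x * (d e / (N * κ e x)) := by
            simp only [hκd]
            rw [sum_mul]
            refine sum_congr rfl fun y _ => ?_
            rw [ssymm y x]
            ring
          rw [h4]
          have := (κpos e x).ne'
          field_simp
        rw [sum_congr rfl h3, ← sum_div, hd, zero_div]
      rw [h1, h2, add_zero, sum_comm]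
      refine sum_congr rfl fun y _ => sum_congr rfl fun e _ => ?_
      rw [ssymm y x, κsymm e y, ssymm e x]
      ring
    rw [e1, e2]
    ring
  · intro x y
    have h1 := bs (fun e => d x / (N * κ x e)) (fun e => s e y) (fun e => s0 e y) (fun e => s1 e y)
      (fun e => bd x x e)
    have h2 := bs (fun e => d e / (N * κ e y)) (fun e => s e x) (fun e => s0 e x) (fun e => s1 e x)
      (fun e => bd e e y)
    simp only [hF]
    rw [abs_mul, abs_of_nonneg (s0 x y)]
    calc s x y * |∑ e, s e y * (d x / (N * κ x e)) + ∑ e, s e x * (d e / (N * κ e y))|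
        ≤ 1 * |∑ e, s e y * (d x / (N * κ x e)) + ∑ e, s e x * (d e / (N * κ e y))| :=
          mul_le_mul_of_nonneg_right (s1 x y) (abs_nonneg _)
      _ ≤ |∑ e, s e y * (d x / (N * κ x e))| + |∑ e, s e x * (d e / (N * κ e y))| := by
          rw [one_mul]; exact abs_add_le _ _
      _ ≤ η / K + η / K := add_le_add h1 h2
      _ = 2 * η / K := by ring

end Pool.Agent.H60.EP
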