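import Pool.Agent.H60.EP.Cyc
import Pool.Agent.H60.EP.Defs

/-!
# From equal loads to a partition into shortest paths
-/

set_option autoImplicit false

open Finset

namespace Pool.Agent.H60.EP

/-- clearing denominators -/
theorem clear {X : Type} [Fintype X] (w : X → ℚ) (hw : ∀ x, 0 ≤ w x) :
    ∃ k : ℕ, 1 ≤ k ∧ ∃ W : X → ℕ, ∀ x, (W x : ℚ) = k * w x := by
  classical
  set k : ℕ := ∏ x, (w x).den with hk
  have hk0 : 0 < k := prod_pos fun x _ => (w x).den_pos
  refine ⟨k, hk0, fun x => (k / (w x).den) * (w x).num.toNat, fun x => ?_⟩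
  have h1 : (w x).den ∣ k := dvd_prod_of_mem _ (mem_univ x)
  obtain ⟨q, hq⟩ := h1
  have h2 : k / (w x).den = q := by
    rw [hq]; exact Nat.mul_div_cancel_left _ (w x).den_pos
  have h3 : ((w x).num.toNat : ℤ) = (w x).num := Int.toNat_of_nonneg (Rat.num_nonneg.2 (hw x))
  have h4 : (((w x).num.toNat : ℕ) : ℚ) = (w x).num := by exact_mod_cast h3
  have h5 : (w x) * (w x).den = (w x).num := Rat.mul_den_eq_num (w x)
  show (((k / (w x).den) * (w x).num.toNat : ℕ) : ℚ) = k * w x
  rw [h2]
  push_cast
  rw [h4, hq, ← h5]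
  push_cast
  ring

theorem pick {V : Type} [Fintype V] [DecidableEq V] (f : V → V → ℕ) {a b : V} (hab : a ≠ b) :
    ∑ u, ∑ v, (if s(u, v) = s(a, b) then f u v else 0) = f a b + f b a := by
  have h1 : ∀ u v : V, (if s(u, v) = s(a, b) then f u v else 0) =
      (if u = a then (if v = b then f u v else 0) else 0) +
      (if u = b then (if v = a then f u v else 0) else 0) := by
    intro u v
    by_cases h : s(u, v) = s(a, b)
    · rw [if_pos h]
      rw [Sym2.eq_iff] at h
      rcases h with ⟨h1, h2⟩ | ⟨h1, h2⟩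
      · subst h1; subst h2
        rw [if_pos rfl, if_pos rfl, if_neg hab, add_zero]
      · subst h1; subst h2
        rw [if_neg (Ne.symm hab), if_pos rfl, if_pos rfl, zero_add]
    · rw [if_neg h]
      rw [Sym2.eq_iff] at h
      push Not at h
      by_cases h2 : u = a
      · have h3 : v ≠ b := h.1 h2
        have h4 : u ≠ b := by rw [h2]; exact hab
        rw [if_pos h2, if_neg h3, if_neg h4]
      · rw [if_neg h2]
        by_cases h5 : u = b
        · have h3 : v ≠ a := h.2 h5
          rw [if_pos h5, if_neg h3]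
        · rw [if_neg h5]
  simp only [h1, sum_add_distrib]
  congr 1
  · simp
  · simp

theorem half {n : ℕ} (g : Fin n → Fin n → ℕ) (hs : ∀ u v, g u v = g v u) (h0 : ∀ u, g u u = 0) :
    ∑ u, ∑ v, g u v = 2 * ∑ u, ∑ v ∈ univ.filter (fun v => u < v), g u v := by
  have h1 : ∀ u, ∑ v, g u v = ∑ v ∈ univ.filter (fun v => u < v), g u v +
      ∑ v ∈ univ.filter (fun v => v < u), g u v := by
    intro u
    rw [sum_filter, sum_filter, ← sum_add_distrib]
    refine sum_congr rfl fun v _ => ?_
    rcases lt_trichotomy u v with h | h | h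
    · rw [if_pos h, if_neg h.asymm, add_zero]
    · subst h
      simp [h0]
    · rw [if_neg h.asymm, if_pos h, zero_add]
  have h2 : ∑ u, ∑ v ∈ univ.filter (fun v => v < u), g u v =
      ∑ u, ∑ v ∈ univ.filter (fun v => u < v), g u v := by
    simp only [sum_filter]
    rw [sum_comm]
    exact sum_congr rfl fun u _ => sum_congr rfl fun v _ => by rw [hs]
  rw [sum_congr rfl fun u _ => h1 u, sum_add_distrib, h2]
  ring

open scoped Classical in
/-- the family of paths of a pair -/
theorem fam {n : ℕ} (G : SimpleGraph (Fin n)) (k : ℕ) (W : Fin n → Fin n → Fin n → ℕ)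
    (h0 : ∀ i v j, ¬ Cherry G i v j → W i v j = 0)
    (h1 : ∀ i j, i ≠ j → ¬ G.Adj i j → ∑ v, W i v j = k) (hk : 1 ≤ k) (u v : Fin n) :
    ∃ p : Fin k → G.Walk u v,
      (u < v → ∀ t, (p t).IsPath ∧ (p t).length = G.dist u v) ∧
      (u < v → ∀ e : Sym2 (Fin n), ∑ t, (p t).edges.count e =
        (if G.Adj u v then (if s(u, v) = e then k else 0) else 0) +
        ∑ x, W u x v * ((if s(u, x) = e then 1 else 0) + (if s(x, v) = e then 1 else 0))) := by
  have conn : ∀ a b : Fin n, Nonempty (G.Walk a b) := by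
    intro a b
    by_cases hab : a = b
    · subst hab; exact ⟨SimpleGraph.Walk.nil⟩
    by_cases h : G.Adj a b
    · exact ⟨SimpleGraph.Walk.cons h SimpleGraph.Walk.nil⟩
    · have h2 : ∃ x, W a x b ≠ 0 := by
        by_contra hcon
        push Not at hcon
        have := h1 a b hab h
        rw [sum_eq_zero fun x _ => hcon x] at this
        omega
      obtain ⟨x, hx⟩ := h2
      have hc : Cherry G a x b := by
        by_contra hc
        exact hx (h0 a x b hc)
      exact ⟨SimpleGraph.Walk.cons hc.2.2.1 (SimpleGraph.Walk.cons hc.2.2.2 SimpleGraph.Walk.nil)⟩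
  by_cases huv : u < v
  · have hne : u ≠ v := ne_of_lt huv
    by_cases h : G.Adj u v
    · refine ⟨fun _ => SimpleGraph.Walk.cons h SimpleGraph.Walk.nil, fun _ t => ⟨?_, ?_⟩, fun _ e => ?_⟩
      · simp [SimpleGraph.Walk.cons_isPath_iff, hne]
      · have : G.dist u v = 1 := SimpleGraph.dist_eq_one_iff_adj.2 h
        rw [this]
        rfl
      · have hz : ∀ x ∈ (univ : Finset (Fin n)), W u x v *
            ((if s(u, x) = e then 1 else 0) + (if s(x, v) = e then 1 else 0)) = 0 := by
          intro x _
          rw [h0 u x v (fun hc => hc.2.1 h), zero_mul]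
        rw [sum_eq_zero hz, add_zero, if_pos h]
        simp only [SimpleGraph.Walk.edges_cons, SimpleGraph.Walk.edges_nil, List.count_cons,
          List.count_nil, zero_add, sum_const, card_univ, Fintype.card_fin, smul_eq_mul, beq_iff_eq]
        split <;> simp
    · have hsum : Fintype.card (Fin k) = Fintype.card (Σ x, Fin (W u x v)) := by
        rw [Fintype.card_sigma]
        simp only [Fintype.card_fin]
        exact (h1 u v hne h).symm
      set E := Fintype.equivOfCardEq hsum with hE
      have hch : ∀ z : (Σ x, Fin (W u x v)), Cherry G u z.1 v := by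
        intro z
        by_contra hc
        have := h0 u z.1 v hc
        have h3 := z.2.2
        omega
      refine ⟨fun t => SimpleGraph.Walk.cons (hch (E t)).2.2.1
        (SimpleGraph.Walk.cons (hch (E t)).2.2.2 SimpleGraph.Walk.nil), fun _ t => ⟨?_, ?_⟩, fun _ e => ?_⟩
      · have a1 := (hch (E t)).2.2.1.ne
        have a2 := (hch (E t)).2.2.2.ne
        simp [SimpleGraph.Walk.cons_isPath_iff, hne, a1, a2]
      · have h3 : G.dist u v ≤ 2 := SimpleGraph.dist_le (SimpleGraph.Walk.cons (hch (E t)).2.2.1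
          (SimpleGraph.Walk.cons (hch (E t)).2.2.2 SimpleGraph.Walk.nil))
        have h4 : G.dist u v ≠ 0 := by
          have hr : G.Reachable u v := (conn u v).elim fun p => p.reachable
          rw [Ne, SimpleGraph.Reachable.dist_eq_zero_iff hr]
          exact hne
        have h5 : G.dist u v ≠ 1 := by
          rw [Ne, SimpleGraph.dist_eq_one_iff_adj]
          exact h
        have h6 : G.dist u v = 2 := by omega
        rw [h6]
        rfl
      · have h3 : ∀ t : Fin k, (SimpleGraph.Walk.cons (hch (E t)).2.2.1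
            (SimpleGraph.Walk.cons (hch (E t)).2.2.2 SimpleGraph.Walk.nil)).edges.count e =
            (fun z : (Σ x, Fin (W u x v)) => (if s(u, z.1) = e then 1 else 0) +
              (if s(z.1, v) = e then 1 else 0)) (E t) := by
          intro t
          simp only [SimpleGraph.Walk.edges_cons, SimpleGraph.Walk.edges_nil, List.count_cons,
            List.count_nil, zero_add, beq_iff_eq]
          ring
        rw [sum_congr rfl fun t _ => h3 t, Equiv.sum_comp E (fun z : (Σ x, Fin (W u x v)) =>
            (if s(u, z.1) = e then 1 else 0) + (if s(z.1, v) = e then 1 else 0)), if_neg h, zero_add,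
          Fintype.sum_sigma]
        refine sum_congr rfl fun x _ => ?_
        refine (Finset.sum_const (s := (univ : Finset (Fin (W u x v))))
          ((if s(u, x) = e then 1 else 0) + (if s(x, v) = e then 1 else 0) : ℕ)).trans ?_
        rw [card_univ, Fintype.card_fin, smul_eq_mul]
  · obtain ⟨p⟩ := conn u v
    exact ⟨fun _ => p, fun h => absurd h huv, fun h => absurd h huv⟩

open scoped Classical in
/-- **From weights to paths.** -/
theorem epr_of_weights {n : ℕ} (G : SimpleGraph (Fin n)) (c : ℚ) (w : Fin n → Fin n → Fin n → ℚ)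
    (hw : ∀ i v j, 0 ≤ w i v j) (hs : ∀ i v j, w i v j = w j v i)
    (h0 : ∀ i v j, ¬ Cherry G i v j → w i v j = 0)
    (h1 : ∀ i j, i ≠ j → ¬ G.Adj i j → ∑ v, w i v j = 1)
    (hc : ∀ u v, G.Adj u v → load w u v = c) : EPR n G := by
  obtain ⟨k, hk, W', hW'⟩ := clear (fun p : Fin n × Fin n × Fin n => w p.1 p.2.1 p.2.2) (fun p => hw _ _ _)
  set W : Fin n → Fin n → Fin n → ℕ := fun i v j => W' (i, v, j) with hWdef
  have hW : ∀ i v j, (W i v j : ℚ) = k * w i v j := fun i v j => hW' (i, v, j)
  have hkq : (0 : ℚ) < k := by exact_mod_cast hk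
  have Ws : ∀ i v j, W i v j = W j v i := by
    intro i v j
    have : (W i v j : ℚ) = W j v i := by rw [hW, hW, hs]
    exact_mod_cast this
  have W0 : ∀ i v j, ¬ Cherry G i v j → W i v j = 0 := by
    intro i v j h
    have : (W i v j : ℚ) = 0 := by rw [hW, h0 i v j h, mul_zero]
    exact_mod_cast this
  have W1 : ∀ i j, i ≠ j → ¬ G.Adj i j → ∑ v, W i v j = k := by
    intro i j hij h
    have : ((∑ v, W i v j : ℕ) : ℚ) = k := by
      push_cast
      rw [sum_congr rfl fun v _ => hW i v j, ← mul_sum, h1 i j hij h, mul_one]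
    exact_mod_cast this
  have Wc : ∀ u v, G.Adj u v → ((∑ j, W u v j + ∑ j, W v u j : ℕ) : ℚ) = k * c := by
    intro u v h
    push_cast
    rw [← hc u v h]
    unfold load
    rw [sum_congr rfl fun j _ => hW u v j, sum_congr rfl fun j _ => hW v u j, ← mul_sum, ← mul_sum]
    ring
  -- the number `m`
  obtain ⟨M, hM⟩ : ∃ M : ℕ, ∀ u v, G.Adj u v → ∑ j, W u v j + ∑ j, W v u j = M := by
    by_cases hE : ∃ u v, G.Adj u v
    · obtain ⟨a, b, hab⟩ := hE
      refine ⟨∑ j, W a b j + ∑ j, W b a j, fun u v h => ?_⟩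
      have e1 := Wc u v h
      have e2 := Wc a b hab
      have : ((∑ j, W u v j + ∑ j, W v u j : ℕ) : ℚ) = ((∑ j, W a b j + ∑ j, W b a j : ℕ) : ℚ) := by
        rw [e1, e2]
      exact_mod_cast this
    · exact ⟨0, fun u v h => absurd ⟨u, v, h⟩ hE⟩
  choose P hP1 hP2 using fam G k W W0 W1 hk
  refine ⟨k + M, k, by omega, hk, P, fun u v huv t => hP1 u v huv t, ?_⟩
  intro e he
  induction e with
  | _ a b =>
  have hab : G.Adj a b := he
  have hne : a ≠ b := hab.ne
  set g : Fin n → Fin n → ℕ := fun u v =>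
    (if G.Adj u v then (if s(u, v) = s(a, b) then k else 0) else 0) +
    ∑ x, W u x v * ((if s(u, x) = s(a, b) then 1 else 0) + (if s(x, v) = s(a, b) then 1 else 0)) with hg
  have gs : ∀ u v, g u v = g v u := by
    intro u v
    simp only [hg]
    congr 1
    · by_cases h : G.Adj u v
      · rw [if_pos h, if_pos h.symm, Sym2.eq_swap]
      · rw [if_neg h, if_neg (fun h' => h h'.symm)]
    · refine sum_congr rfl fun x _ => ?_
      rw [Ws u x v, Sym2.eq_swap (a := u) (b := x), Sym2.eq_swap (a := x) (b := v), add_comm]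
  have g0 : ∀ u, g u u = 0 := by
    intro u
    simp only [hg]
    rw [if_neg (SimpleGraph.irrefl G), zero_add]
    refine sum_eq_zero fun x _ => ?_
    rw [W0 u x u (fun h => h.1 rfl), zero_mul]
  have e1 : ∑ u : Fin n, ∑ v ∈ Finset.univ.filter (fun v => u < v), ∑ t : Fin k,
      (P u v t).edges.count s(a, b) = ∑ u, ∑ v ∈ univ.filter (fun v => u < v), g u v := by
    refine sum_congr rfl fun u _ => sum_congr rfl fun v hv => ?_
    have h := hP2 u v (mem_filter.1 hv).2 s(a, b)
    simp only [hg]
    convert h using 2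
  have e2 := half g gs g0
  have e3 : ∑ u, ∑ v, g u v = 2 * (k + M) := by
    have f1 : ∑ u, ∑ v, (if G.Adj u v then (if s(u, v) = s(a, b) then k else 0) else 0) = 2 * k := by
      have f2 : ∀ u v : Fin n, (if G.Adj u v then (if s(u, v) = s(a, b) then k else 0) else 0) =
          (if s(u, v) = s(a, b) then k else 0) := by
        intro u v
        by_cases h : s(u, v) = s(a, b)
        · have h2 : G.Adj u v := by
            rw [← SimpleGraph.mem_edgeSet, h]; exact hab
          rw [if_pos h2]
        · rw [if_neg h]; split <;> rfl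
      rw [sum_congr rfl fun u _ => sum_congr rfl fun v _ => f2 u v, pick (fun _ _ => k) hne]
      ring
    have f3 : ∑ u, ∑ v, ∑ x, W u x v * (if s(u, x) = s(a, b) then 1 else 0) = M := by
      rw [← hM a b hab, ← pick (fun u x => ∑ v, W u x v) hne]
      refine sum_congr rfl fun u _ => ?_
      rw [sum_comm]
      refine sum_congr rfl fun x _ => ?_
      rw [← sum_mul]
      split <;> simp
    have f4 : ∑ u, ∑ v, ∑ x, W u x v * (if s(x, v) = s(a, b) then 1 else 0) = M := by
      rw [← f3, sum_comm]
      refine sum_congr rfl fun u _ => sum_congr rfl fun v _ => sum_congr rfl fun x _ => ?_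
      rw [Ws v x u, Sym2.eq_swap]
    have f5 : ∑ u, ∑ v, g u v =
        ∑ u, ∑ v, (if G.Adj u v then (if s(u, v) = s(a, b) then k else 0) else 0) +
        (∑ u, ∑ v, ∑ x, W u x v * (if s(u, x) = s(a, b) then 1 else 0) +
        ∑ u, ∑ v, ∑ x, W u x v * (if s(x, v) = s(a, b) then 1 else 0)) := by
      simp only [hg, mul_add, sum_add_distrib]
    rw [f5, f1, f3, f4]
    ring
  have e4 : ∑ u : Fin n, ∑ v ∈ Finset.univ.filter (fun v => u < v), ∑ t : Fin k,
      (P u v t).edges.count s(a, b) = k + M := by
    rw [e1]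
    omega
  convert e4 using 6

end Pool.Agent.H60.EP
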